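import Mathlib

/-!
# A `Σ¹₁` equivalence relation which is not a bi-embeddability relation

We exhibit an equivalence relation on `ℕ` with exactly two classes `A` and `Aᶜ`, where `A` is a
noncomputable set which is many-one reducible to its complement, and show that it is not
computably bi-reducible with the bi-embeddability relation on the computable members of any
isomorphism-closed class of structures in a computable relational language.
-/

namespace Pool.Agent.Results.MP_18fff8_lc.TwoClasses

open FirstOrder FirstOrder.Language Nat.Partrec Encodable Denumerable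

/-! ## Definitions used in the statement -/

/-- The relational language given by `ar`: if `ar i = some n`, then `i` is an `n`-ary relation
symbol; if `ar i = none`, then `i` is not a symbol. -/
def lang (ar : ℕ → Option ℕ) : FirstOrder.Language.{0, 0} where
  Functions := fun _ => Empty
  Relations := fun n => {i : ℕ // ar i = some n}

/-- The atomic questions about a structure with universe contained in `ℕ`: is `x` in the universe
(`Sum.inl x`); does the `i`-th relation hold of the tuple `v` (`Sum.inr (i, v)`)? -/
abbrev Query : Type := ℕ ⊕ (ℕ × List ℕ)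

/-- The structure with the answers `P`: its universe is `{x | P (inl x)}`, and the `i`-th relation
holds of `v` if and only if `P (inr (i, v))`. -/
def St (ar : ℕ → Option ℕ) (P : Query → Prop) :
    CategoryTheory.Bundled.{0} (lang ar).Structure :=
  ⟨{x : ℕ // P (Sum.inl x)},
    { funMap := fun f => f.elim
      RelMap := fun r v => P (Sum.inr (r.1, List.ofFn fun i => (v i).1)) }⟩

/-- `e` is an index of (the characteristic function of) an atomic diagram: the `e`-th partial
recursive function answers every question by `0` or `1`. -/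
def IsIndex (e : ℕ) : Prop :=
  ∀ q : Query, (ofNat Code e).eval (encode q) = Part.some 0 ∨
    (ofNat Code e).eval (encode q) = Part.some 1

/-- The computable structure with index `e`. -/
def M (ar : ℕ → Option ℕ) (e : ℕ) : CategoryTheory.Bundled.{0} (lang ar).Structure :=
  St ar fun q => (ofNat Code e).eval (encode q) = Part.some 1

/-- The set of indices of the computable members of a class `K` of structures. -/
def indexSet (ar : ℕ → Option ℕ) (K : Set (CategoryTheory.Bundled.{0} (lang ar).Structure)) :
    Set ℕ :=
  {e | IsIndex e ∧ M ar e ∈ K}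

/-- Bi-embeddability of the structures with indices `e` and `e'`. -/
def BiEmb (ar : ℕ → Option ℕ) (e e' : ℕ) : Prop :=
  Nonempty ((M ar e) ↪[lang ar] (M ar e')) ∧ Nonempty ((M ar e') ↪[lang ar] (M ar e))

/-- `K` is closed under isomorphism. -/
def IsoClosed (ar : ℕ → Option ℕ) (K : Set (CategoryTheory.Bundled.{0} (lang ar).Structure)) :
    Prop :=
  ∀ N N' : CategoryTheory.Bundled.{0} (lang ar).Structure,
    Nonempty (N ≃[lang ar] N') → N ∈ K → N' ∈ K

/-- Computable reducibility of the relation `E` on `X` to the relation `F` on `Y`. -/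
def CRed (X : Set ℕ) (E : ℕ → ℕ → Prop) (Y : Set ℕ) (F : ℕ → ℕ → Prop) : Prop :=
  ∃ f : ℕ →. ℕ, Partrec f ∧ (∀ x ∈ X, ∃ y ∈ f x, y ∈ Y) ∧
    ∀ x ∈ X, ∀ x' ∈ X, ∀ y ∈ f x, ∀ y' ∈ f x', (E x x' ↔ F y y')

/-- `E` is a `Σ¹₁` subset of `ℕ × ℕ` (Kleene normal form). -/
def IsSigma11 (E : ℕ → ℕ → Prop) : Prop :=
  ∃ P : (ℕ × ℕ) × List ℕ → Prop, ComputablePred P ∧
    ∀ x y, E x y ↔ ∃ g : ℕ → ℕ, ∀ k, P ((x, y), (List.range k).map g)

/-! ## Bounded quantifiers -/

/-- Bounded universal quantifier. -/
def ball (n : ℕ) (p : ℕ → Bool) : Bool := Nat.rec true (fun k b => b && p k) n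

theorem ball_iff {n : ℕ} {p : ℕ → Bool} : ball n p = true ↔ ∀ k < n, p k = true := by
  induction n with
  | zero => simp [ball]
  | succ n ih =>
    have h : ball (n + 1) p = (ball n p && p n) := rfl
    rw [h, Bool.and_eq_true, ih]
    constructor
    · rintro ⟨h1, h2⟩ k hk
      rcases Nat.lt_succ_iff_lt_or_eq.1 hk with h | rfl
      · exact h1 k h
      · exact h2
    · intro h
      exact ⟨fun k hk => h k (by omega), h n (by omega)⟩

theorem computable_ball {α : Type*} [Primcodable α] {f : α → ℕ} {p : α → ℕ → Bool}
    (hf : Computable f) (hp : Computable₂ p) : Computable fun a => ball (f a) (p a) := by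
  refine (Computable.nat_rec (f := f) (g := fun _ => true)
    (h := fun a kb => kb.2 && p a kb.1) hf (Computable.const true) ?_).of_eq fun a => rfl
  exact (Primrec.and.to_comp.comp (Computable.snd.comp Computable.snd)
    (hp.comp Computable.fst (Computable.fst.comp Computable.snd))).to₂

/-! ## Finite simulations -/

/-- The list `l` maps (the part below `s` of) a structure with answers `P` into a structure with
answers `P'`, respecting all answers with codes below `s`. -/
def Sim (ar : ℕ → Option ℕ) (s : ℕ) (P P' : Query → Prop) (l : List ℕ) : Prop :=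
  (∀ x < s, P (.inl x) → P' (.inl (l.getD x 0))) ∧
  (∀ x < s, ∀ y < s, P (.inl x) → P (.inl y) → l.getD x 0 = l.getD y 0 → x = y) ∧
  (∀ i v, encode (Sum.inr (i, v) : Query) < s → ar i = some v.length →
    (∀ x ∈ v, P (.inl x)) → (P (.inr (i, v)) ↔ P' (.inr (i, v.map fun x => l.getD x 0))))

theorem lt_encode_of_mem {x : ℕ} {v : List ℕ} (h : x ∈ v) : x < encode v := by
  induction v with
  | nil => simp at h
  | cons a v ih =>
    rw [Encodable.encode_list_cons]
    have h1 := Nat.left_le_pair (encode a) (encode v)
    have h2 := Nat.right_le_pair (encode a) (encode v)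
    rcases List.mem_cons.1 h with rfl | h
    · have : encode x = x := rfl
      omega
    · have := ih h
      omega

theorem lt_of_mem_query {x i s : ℕ} {v : List ℕ} (h : x ∈ v)
    (hs : encode (Sum.inr (i, v) : Query) < s) : x < s := by
  have h1 := lt_encode_of_mem h
  have h2 : encode (Sum.inr (i, v) : Query) = 2 * Nat.pair i (encode v) + 1 := rfl
  have h3 := Nat.right_le_pair i (encode v)
  omega

theorem getElem_mem_univ {P : Query → Prop} {v : List ℕ}
    (hv : ∀ x ∈ v, P (.inl x)) (k : Fin v.length) : P (.inl (v.get k)) :=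
  hv _ (List.get_mem _ _)

/-- What an embedding of `St ar P` into `St ar P'` gives on raw queries. -/
theorem exists_map_of_embedding {ar : ℕ → Option ℕ} {P P' : Query → Prop}
    (h : Nonempty ((St ar P) ↪[lang ar] (St ar P'))) :
    ∃ π : ℕ → ℕ, (∀ x, P (.inl x) → P' (.inl (π x))) ∧
      (∀ x y, P (.inl x) → P (.inl y) → π x = π y → x = y) ∧
      (∀ i v, ar i = some v.length → (∀ x ∈ v, P (.inl x)) →
        (P (.inr (i, v)) ↔ P' (.inr (i, v.map π)))) := by
  classical
  obtain ⟨φ⟩ := h
  refine ⟨fun x => if hx : P (.inl x) then (φ ⟨x, hx⟩).1 else 0, ?_, ?_, ?_⟩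
  · intro x hx
    simp only [hx, dif_pos]
    exact (φ ⟨x, hx⟩).2
  · intro x y hx hy hxy
    simp only [hx, hy, dif_pos] at hxy
    have := φ.injective (Subtype.ext hxy)
    exact congrArg Subtype.val this
  · intro i v har hv
    let r : (lang ar).Relations v.length := ⟨i, har⟩
    let w : Fin v.length → (St ar P) := fun k => ⟨v.get k, getElem_mem_univ hv k⟩
    have h1 := φ.map_rel r w
    have h2 : Structure.RelMap r w ↔ P (.inr (i, v)) := by
      have : (List.ofFn fun k => (w k).1) = v := List.ofFn_get v
      show P (.inr (i, List.ofFn fun k => (w k).1)) ↔ _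
      rw [this]
    have h3 : Structure.RelMap r (φ ∘ w) ↔
        P' (.inr (i, v.map fun x => if hx : P (.inl x) then (φ ⟨x, hx⟩).1 else 0)) := by
      have : (List.ofFn fun k => ((φ ∘ w) k).1) =
          v.map fun x => if hx : P (.inl x) then (φ ⟨x, hx⟩).1 else 0 := by
        apply List.ext_getElem
        · simp
        · intro k hk1 hk2
          have hk : k < v.length := by simpa using hk1
          simp only [List.getElem_ofFn, Function.comp, List.getElem_map]
          have hx : P (.inl v[k]) := hv _ (List.getElem_mem _)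
          rw [dif_pos hx]
          rfl
      show P' (.inr (i, List.ofFn fun k => ((φ ∘ w) k).1)) ↔ _
      rw [this]
    rw [← h2, ← h3]
    exact h1.symm

theorem Sim.self (ar : ℕ → Option ℕ) (s : ℕ) (P : Query → Prop) :
    Sim ar s P P (List.range s) := by
  have key : ∀ x < s, (List.range s).getD x 0 = x := by
    intro x hx
    simp [List.getD, hx]
  refine ⟨?_, ?_, ?_⟩
  · intro x hx h
    rwa [key x hx]
  · intro x hx y hy _ _ h
    rwa [key x hx, key y hy] at h
  · intro i v hs _ _
    have : v.map (fun x => (List.range s).getD x 0) = v := by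
      conv_rhs => rw [← List.map_id v]
      apply List.map_congr_left
      intro x hx
      exact key x (lt_of_mem_query hx hs)
    rw [this]

theorem Sim.trans_embedding {ar : ℕ → Option ℕ} {s : ℕ} {P P' P'' : Query → Prop} {l : List ℕ}
    (h : Sim ar s P P' l) (h' : Nonempty ((St ar P') ↪[lang ar] (St ar P''))) :
    ∃ l', Sim ar s P P'' l' := by
  obtain ⟨π, h1, h2, h3⟩ := exists_map_of_embedding h'
  refine ⟨(List.range s).map fun x => π (l.getD x 0), ?_⟩
  have key : ∀ x < s, ((List.range s).map fun x => π (l.getD x 0)).getD x 0 = π (l.getD x 0) := by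
    intro x hx
    simp [List.getD, hx]
  refine ⟨?_, ?_, ?_⟩
  · intro x hx hP
    rw [key x hx]
    exact h1 _ (h.1 x hx hP)
  · intro x hx y hy hPx hPy he
    rw [key x hx, key y hy] at he
    exact h.2.1 x hx y hy hPx hPy (h2 _ _ (h.1 x hx hPx) (h.1 y hy hPy) he)
  · intro i v hs har hv
    rw [h.2.2 i v hs har hv]
    have e : (v.map fun x => ((List.range s).map fun x => π (l.getD x 0)).getD x 0)
        = (v.map fun x => l.getD x 0).map π := by
      rw [List.map_map]
      apply List.map_congr_left
      intro x hx
      exact key x (lt_of_mem_query hx hs)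
    rw [e]
    apply h3
    · simpa using har
    · intro x hx
      obtain ⟨y, hy, rfl⟩ := List.mem_map.1 hx
      exact h.1 y (lt_of_mem_query hy hs) (hv y hy)

theorem exists_sim_of_embedding {ar : ℕ → Option ℕ} {P P' : Query → Prop}
    (h : Nonempty ((St ar P) ↪[lang ar] (St ar P'))) (s : ℕ) : ∃ l, Sim ar s P P' l :=
  (Sim.self ar s P).trans_embedding h

/-! ## Switching from one structure to another one -/

/-- The map used to continue the structure after the switch. -/
def shift (s : ℕ) (l : List ℕ) (x : ℕ) : ℕ := if x < s then l.getD x 0 else x - s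

/-- Answers of the structure which switches at stage `s` from `D₀` to (a copy of) `D₁`, using the
finite map `l`. -/
def answer (D₀ D₁ : ℕ → Bool) (s : ℕ) (l : List ℕ) (n : ℕ) : Bool :=
  if n < s then D₀ n else
    Sum.casesOn (ofNat Query n)
      (fun x => if x < s then D₀ (encode (Sum.inl x : Query)) else
        D₁ (encode (Sum.inl (x - s) : Query)) &&
          ball s fun y => !(D₀ (encode (Sum.inl y : Query)) && decide (l.getD y 0 = x - s)))
      (fun p => D₁ (encode (Sum.inr (p.1, p.2.map (shift s l)) : Query)))

/-- The predicate on queries given by a Boolean function on codes. -/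
def pr (D : ℕ → Bool) : Query → Prop := fun q => D (encode q) = true

theorem answer_of_lt {D₀ D₁ : ℕ → Bool} {s : ℕ} {l : List ℕ} {n : ℕ} (h : n < s) :
    answer D₀ D₁ s l n = D₀ n := by simp [answer, h]

theorem encode_inl (x : ℕ) : encode (Sum.inl x : Query) = 2 * x := rfl

theorem pr_answer_inl_lt {D₀ D₁ : ℕ → Bool} {s : ℕ} {l : List ℕ} {x : ℕ} (h : x < s) :
    pr (answer D₀ D₁ s l) (.inl x) ↔ pr D₀ (.inl x) := by
  unfold pr answer
  simp only [ofNat_encode]
  split_ifs <;> rfl

theorem pr_answer_inl_ge {D₀ D₁ : ℕ → Bool} {s : ℕ} {l : List ℕ} {x : ℕ} (h : s ≤ x) :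
    pr (answer D₀ D₁ s l) (.inl x) ↔
      pr D₁ (.inl (x - s)) ∧ ∀ y < s, pr D₀ (.inl y) → l.getD y 0 ≠ x - s := by
  unfold pr answer
  have h1 : ¬ encode (Sum.inl x : Query) < s := by rw [encode_inl]; omega
  simp only [ofNat_encode, h1, if_false, not_lt.2 h, Bool.and_eq_true, ball_iff]
  refine and_congr_right fun _ => forall_congr' fun y => forall_congr' fun _ => ?_
  cases D₀ (encode (Sum.inl y : Query)) <;> simp

theorem pr_answer_inr_ge {D₀ D₁ : ℕ → Bool} {s : ℕ} {l : List ℕ} {i : ℕ} {v : List ℕ}
    (h : s ≤ encode (Sum.inr (i, v) : Query)) :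
    pr (answer D₀ D₁ s l) (.inr (i, v)) ↔ pr D₁ (.inr (i, v.map (shift s l))) := by
  unfold pr answer
  simp only [ofNat_encode, not_lt.2 h, if_false]

theorem pr_answer_univ {D₀ D₁ : ℕ → Bool} {ar : ℕ → Option ℕ} {s : ℕ} {l : List ℕ}
    (hl : Sim ar s (pr D₀) (pr D₁) l) {x : ℕ} (hx : pr (answer D₀ D₁ s l) (.inl x)) :
    pr D₁ (.inl (shift s l x)) := by
  unfold shift
  by_cases h : x < s
  · rw [if_pos h]
    exact hl.1 x h ((pr_answer_inl_lt h).1 hx)
  · rw [if_neg h]
    exact ((pr_answer_inl_ge (not_lt.1 h)).1 hx).1

theorem shift_inj {D₀ D₁ : ℕ → Bool} {ar : ℕ → Option ℕ} {s : ℕ} {l : List ℕ}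
    (hl : Sim ar s (pr D₀) (pr D₁) l) {x y : ℕ} (hx : pr (answer D₀ D₁ s l) (.inl x))
    (hy : pr (answer D₀ D₁ s l) (.inl y)) (h : shift s l x = shift s l y) : x = y := by
  unfold shift at h
  by_cases hxs : x < s <;> by_cases hys : y < s
  · rw [if_pos hxs, if_pos hys] at h
    exact hl.2.1 x hxs y hys ((pr_answer_inl_lt hxs).1 hx) ((pr_answer_inl_lt hys).1 hy) h
  · rw [if_pos hxs, if_neg hys] at h
    exact absurd h (((pr_answer_inl_ge (not_lt.1 hys)).1 hy).2 x hxs
      ((pr_answer_inl_lt hxs).1 hx))
  · rw [if_neg hxs, if_pos hys] at h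
    exact absurd h.symm (((pr_answer_inl_ge (not_lt.1 hxs)).1 hx).2 y hys
      ((pr_answer_inl_lt hys).1 hy))
  · rw [if_neg hxs, if_neg hys] at h
    omega

theorem shift_surj {D₀ D₁ : ℕ → Bool} {s : ℕ} {l : List ℕ} {m : ℕ} (hm : pr D₁ (.inl m)) :
    ∃ x, pr (answer D₀ D₁ s l) (.inl x) ∧ shift s l x = m := by
  by_cases h : ∃ y < s, pr D₀ (.inl y) ∧ l.getD y 0 = m
  · obtain ⟨y, hy, hP, he⟩ := h
    exact ⟨y, (pr_answer_inl_lt hy).2 hP, by unfold shift; rw [if_pos hy, he]⟩
  · push Not at h
    refine ⟨s + m, (pr_answer_inl_ge (by omega)).2 ?_, ?_⟩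
    · rw [Nat.add_sub_cancel_left]
      exact ⟨hm, h⟩
    · unfold shift
      rw [if_neg (by omega)]
      omega

/-- After the switch we have built an isomorphic copy of the structure given by `D₁`. -/
theorem iso_of_sim {D₀ D₁ : ℕ → Bool} {ar : ℕ → Option ℕ} {s : ℕ} {l : List ℕ}
    (hl : Sim ar s (pr D₀) (pr D₁) l) :
    Nonempty ((St ar (pr (answer D₀ D₁ s l))) ≃[lang ar] (St ar (pr D₁))) := by
  classical
  let f : (St ar (pr (answer D₀ D₁ s l))) → (St ar (pr D₁)) :=
    fun x => ⟨shift s l x.1, pr_answer_univ hl x.2⟩
  have hf : Function.Bijective f := by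
    constructor
    · intro x y h
      exact Subtype.ext (shift_inj hl x.2 y.2 (congrArg Subtype.val h))
    · intro m
      obtain ⟨x, hx, he⟩ := shift_surj m.2
      exact ⟨⟨x, hx⟩, Subtype.ext he⟩
  refine ⟨{ toEquiv := Equiv.ofBijective f hf, map_fun' := ?_, map_rel' := ?_ }⟩
  · intro n g
    exact g.elim
  · intro n r v
    show pr D₁ (.inr (r.1, List.ofFn fun k => (f (v k)).1)) ↔
      pr (answer D₀ D₁ s l) (.inr (r.1, List.ofFn fun k => (v k).1))
    have e : (List.ofFn fun k => (f (v k)).1) = (List.ofFn fun k => (v k).1).map (shift s l) := by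
      rw [List.map_ofFn]
      rfl
    rw [e]
    by_cases h : encode (Sum.inr (r.1, List.ofFn fun k => (v k).1) : Query) < s
    · have h1 : ∀ x ∈ (List.ofFn fun k => (v k).1), x < s := fun x hx => lt_of_mem_query hx h
      have h2 : ∀ x ∈ (List.ofFn fun k => (v k).1), pr D₀ (.inl x) := by
        intro x hx
        obtain ⟨k, rfl⟩ := List.mem_ofFn.1 hx
        exact (pr_answer_inl_lt (h1 _ hx)).1 (v k).2
      have h3 := hl.2.2 r.1 (List.ofFn fun k => (v k).1) h (by simpa using r.2) h2
      have h4 : (List.ofFn fun k => (v k).1).map (shift s l)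
          = (List.ofFn fun k => (v k).1).map fun x => l.getD x 0 := by
        apply List.map_congr_left
        intro x hx
        simp [shift, h1 x hx]
      rw [h4, ← h3]
      unfold pr
      rw [answer_of_lt h]
    · exact (pr_answer_inr_ge (not_lt.1 h)).symm

/-! ## Computability of the construction -/

section comp

variable {D : ℕ → ℕ → Bool}

theorem comp_query_inl : Computable fun x : ℕ => encode (Sum.inl x : Query) :=
  Computable.encode.comp Computable.sumInl

theorem comp_getD : Computable₂ fun (l : List ℕ) (x : ℕ) => l.getD x 0 :=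
  (Primrec.list_getD 0).to_comp

theorem comp_mapGetD : Computable₂ fun (v l : List ℕ) => v.map fun x => l.getD x 0 := by
  refine Primrec.to_comp (Primrec.list_map Primrec.fst ?_)
  exact ((Primrec.list_getD 0).comp (Primrec.snd.comp Primrec.fst) Primrec.snd).to₂

theorem comp_mapShift : Computable₂ fun (v : List ℕ) (p : ℕ × List ℕ) => v.map (shift p.1 p.2) := by
  refine Primrec.to_comp (Primrec.list_map Primrec.fst ?_)
  exact (Primrec.ite (Primrec.nat_lt.comp Primrec.snd
      (Primrec.fst.comp (Primrec.snd.comp Primrec.fst)))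
    ((Primrec.list_getD 0).comp (Primrec.snd.comp (Primrec.snd.comp Primrec.fst)) Primrec.snd)
    (Primrec.nat_sub.comp Primrec.snd (Primrec.fst.comp (Primrec.snd.comp Primrec.fst)))).to₂

theorem comp_query_inr : Computable₂ fun (i : ℕ) (v : List ℕ) => encode (Sum.inr (i, v) : Query) :=
  (Computable.encode.comp (Computable.sumInr.comp (Computable.fst.pair Computable.snd))).to₂

/-- Boolean version of `Sim`. The argument is `((a, z), (s, l))`. -/
def simB (ar : ℕ → Option ℕ) (D : ℕ → ℕ → Bool) (t : (ℕ × ℕ) × (ℕ × List ℕ)) : Bool :=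
  (ball t.2.1 fun x => !(D t.1.1 (encode (Sum.inl x : Query))) ||
      D t.1.2 (encode (Sum.inl (t.2.2.getD x 0) : Query))) &&
  ((ball t.2.1 fun x => ball t.2.1 fun y => !(D t.1.1 (encode (Sum.inl x : Query))) ||
      (!(D t.1.1 (encode (Sum.inl y : Query))) ||
        (!(decide (t.2.2.getD x 0 = t.2.2.getD y 0)) || decide (x = y)))) &&
  (ball t.2.1 fun n => Sum.casesOn (ofNat Query n) (fun _ => true) fun p =>
      !(decide (ar p.1 = some p.2.length)) ||
      (!(ball p.2.length fun j => D t.1.1 (encode (Sum.inl (p.2.getD j 0) : Query))) ||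
        (D t.1.1 n == D t.1.2 (encode
          (Sum.inr (p.1, p.2.map fun x => t.2.2.getD x 0) : Query))))))

theorem simB_iff {ar : ℕ → Option ℕ} {a z s : ℕ} {l : List ℕ} :
    simB ar D ((a, z), (s, l)) = true ↔ Sim ar s (pr (D a)) (pr (D z)) l := by
  unfold simB Sim
  simp only [Bool.and_eq_true, ball_iff]
  refine and_congr ?_ (and_congr ?_ ?_)
  · refine forall_congr' fun x => forall_congr' fun _ => ?_
    unfold pr
    cases D a (encode (Sum.inl x : Query)) <;> simp
  · refine forall_congr' fun x => forall_congr' fun _ => forall_congr' fun y =>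
      forall_congr' fun _ => ?_
    unfold pr
    cases D a (encode (Sum.inl x : Query)) <;> cases D a (encode (Sum.inl y : Query)) <;>
      simp [imp_iff_not_or]
  · constructor
    · intro h i v hs har hv
      have h1 := h _ hs
      rw [ofNat_encode] at h1
      have h2 : (ball v.length fun j => D a (encode (Sum.inl (v.getD j 0) : Query))) = true := by
        rw [ball_iff]
        intro j hj
        have : v.getD j 0 = v[j] := by simp [List.getD, hj]
        rw [this]
        exact hv _ (List.getElem_mem _)
      simp only [har, decide_true, Bool.not_true, Bool.false_or, h2, beq_iff_eq] at h1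
      unfold pr
      rw [h1]
    · intro h n hn
      rcases hq : ofNat Query n with x | ⟨i, v⟩
      · rfl
      · have hn' : n = encode (Sum.inr (i, v) : Query) := by rw [← hq, encode_ofNat]
        subst hn'
        by_cases har : ar i = some v.length
        · by_cases hb : (ball v.length fun j =>
              D a (encode (Sum.inl (v.getD j 0) : Query))) = true
          · have hv : ∀ x ∈ v, pr (D a) (.inl x) := by
              intro x hx
              obtain ⟨j, hj, rfl⟩ := List.getElem_of_mem hx
              have h3 := ball_iff.1 hb j hj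
              have : v.getD j 0 = v[j] := by simp [List.getD, hj]
              rw [this] at h3
              exact h3
            have h4 := h i v hn har hv
            unfold pr at h4
            simp only [har, decide_true, Bool.not_true, Bool.false_or, hb, beq_iff_eq]
            exact Bool.eq_iff_iff.2 h4
          · simp only [Bool.not_eq_true] at hb
            simp only [hb, Bool.not_false, Bool.true_or, Bool.or_true]
        · simp [har]

theorem comp_simB {ar : ℕ → Option ℕ} (har : Computable ar) (hD : Computable₂ D) :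
    Computable (simB ar D) := by
  have ha : Computable fun t : (ℕ × ℕ) × (ℕ × List ℕ) => t.1.1 :=
    Computable.fst.comp Computable.fst
  have hz : Computable fun t : (ℕ × ℕ) × (ℕ × List ℕ) => t.1.2 :=
    Computable.snd.comp Computable.fst
  have hs : Computable fun t : (ℕ × ℕ) × (ℕ × List ℕ) => t.2.1 :=
    Computable.fst.comp Computable.snd
  have hl : Computable fun t : (ℕ × ℕ) × (ℕ × List ℕ) => t.2.2 :=
    Computable.snd.comp Computable.snd
  have hor := Primrec.or.to_comp
  have hand := Primrec.and.to_comp
  have hnot := Primrec.not.to_comp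
  unfold simB
  refine hand.comp ?_ (hand.comp ?_ ?_)
  · refine computable_ball hs ?_
    refine (hor.comp (hnot.comp (hD.comp (ha.comp Computable.fst)
      (comp_query_inl.comp Computable.snd))) (hD.comp (hz.comp Computable.fst)
      (comp_query_inl.comp (comp_getD.comp (hl.comp Computable.fst) Computable.snd)))).to₂
  · refine computable_ball hs ?_
    refine Computable.to₂ (f := fun p : ((ℕ × ℕ) × (ℕ × List ℕ)) × ℕ => ball p.1.2.1 fun y =>
      !(D p.1.1.1 (encode (Sum.inl p.2 : Query))) ||
      (!(D p.1.1.1 (encode (Sum.inl y : Query))) ||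
        (!(decide (p.1.2.2.getD p.2 0 = p.1.2.2.getD y 0)) || decide (p.2 = y)))) ?_
    refine computable_ball (hs.comp Computable.fst) ?_
    have e : Computable₂ fun x y : ℕ => decide (x = y) := Primrec.eq.decide.to_comp
    refine (hor.comp (hnot.comp (hD.comp (ha.comp (Computable.fst.comp Computable.fst))
      (comp_query_inl.comp (Computable.snd.comp Computable.fst)))) (hor.comp
      (hnot.comp (hD.comp (ha.comp (Computable.fst.comp Computable.fst))
      (comp_query_inl.comp Computable.snd))) (hor.comp (hnot.comp (e.comp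
      (comp_getD.comp (hl.comp (Computable.fst.comp Computable.fst))
        (Computable.snd.comp Computable.fst))
      (comp_getD.comp (hl.comp (Computable.fst.comp Computable.fst))
        Computable.snd))) (e.comp (Computable.snd.comp Computable.fst) Computable.snd)))).to₂
  · refine computable_ball hs ?_
    refine Computable.to₂ (f := fun p : ((ℕ × ℕ) × (ℕ × List ℕ)) × ℕ =>
      Sum.casesOn (motive := fun _ => Bool) (ofNat Query p.2) (fun _ => true) fun q =>
      !(decide (ar q.1 = some q.2.length)) ||
      (!(ball q.2.length fun j => D p.1.1.1 (encode (Sum.inl (q.2.getD j 0) : Query))) ||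
        (D p.1.1.1 p.2 == D p.1.1.2 (encode
          (Sum.inr (q.1, q.2.map fun x => p.1.2.2.getD x 0) : Query))))) ?_
    refine Computable.sumCasesOn ((Computable.ofNat Query).comp Computable.snd)
      (Computable.const true).to₂ ?_
    have e : Computable₂ fun x y : Option ℕ => decide (x = y) := Primrec.eq.decide.to_comp
    have e' : Computable₂ fun x y : Bool => (x == y) := Primrec.beq.to_comp
    have hq1 : Computable fun r : (((ℕ × ℕ) × (ℕ × List ℕ)) × ℕ) × (ℕ × List ℕ) => r.2.1 :=
      Computable.fst.comp Computable.snd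
    have hq2 : Computable fun r : (((ℕ × ℕ) × (ℕ × List ℕ)) × ℕ) × (ℕ × List ℕ) => r.2.2 :=
      Computable.snd.comp Computable.snd
    have ht : Computable fun r : (((ℕ × ℕ) × (ℕ × List ℕ)) × ℕ) × (ℕ × List ℕ) => r.1.1 :=
      Computable.fst.comp Computable.fst
    have hmap : Computable fun r : (((ℕ × ℕ) × (ℕ × List ℕ)) × ℕ) × (ℕ × List ℕ) =>
        r.2.2.map fun x => r.1.1.2.2.getD x 0 := comp_mapGetD.comp hq2 (hl.comp ht)
    have h1 : Computable fun r : (((ℕ × ℕ) × (ℕ × List ℕ)) × ℕ) × (ℕ × List ℕ) =>
        decide (ar r.2.1 = some r.2.2.length) :=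
      e.comp (har.comp hq1) (Computable.option_some.comp (Computable.list_length.comp hq2))
    have h2 : Computable fun r : (((ℕ × ℕ) × (ℕ × List ℕ)) × ℕ) × (ℕ × List ℕ) =>
        ball r.2.2.length fun j => D r.1.1.1.1 (encode (Sum.inl (r.2.2.getD j 0) : Query)) := by
      refine computable_ball (Computable.list_length.comp hq2) ?_
      have h3 : Computable fun w : ((((ℕ × ℕ) × (ℕ × List ℕ)) × ℕ) × (ℕ × List ℕ)) × ℕ =>
          encode (Sum.inl (w.1.2.2.getD w.2 0) : Query) :=
        comp_query_inl.comp (comp_getD.comp (hq2.comp Computable.fst) Computable.snd)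
      exact (hD.comp (ha.comp (ht.comp Computable.fst)) h3).to₂
    have h4 : Computable fun r : (((ℕ × ℕ) × (ℕ × List ℕ)) × ℕ) × (ℕ × List ℕ) =>
        (D r.1.1.1.1 r.1.2 == D r.1.1.1.2 (encode
          (Sum.inr (r.2.1, r.2.2.map fun x => r.1.1.2.2.getD x 0) : Query))) :=
      e'.comp (hD.comp (ha.comp ht) (Computable.snd.comp Computable.fst))
        (hD.comp (hz.comp ht) (comp_query_inr.comp hq1 hmap))
    exact (hor.comp (hnot.comp h1) (hor.comp (hnot.comp h2) h4)).to₂

theorem comp_answer (hD : Computable₂ D) :
    Computable fun t : ((ℕ × ℕ) × (ℕ × List ℕ)) × ℕ =>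
      answer (D t.1.1.1) (D t.1.1.2) t.1.2.1 t.1.2.2 t.2 := by
  have ha : Computable fun t : ((ℕ × ℕ) × (ℕ × List ℕ)) × ℕ => t.1.1.1 :=
    Computable.fst.comp (Computable.fst.comp Computable.fst)
  have hz : Computable fun t : ((ℕ × ℕ) × (ℕ × List ℕ)) × ℕ => t.1.1.2 :=
    Computable.snd.comp (Computable.fst.comp Computable.fst)
  have hs : Computable fun t : ((ℕ × ℕ) × (ℕ × List ℕ)) × ℕ => t.1.2.1 :=
    Computable.fst.comp (Computable.snd.comp Computable.fst)
  have hl : Computable fun t : ((ℕ × ℕ) × (ℕ × List ℕ)) × ℕ => t.1.2.2 :=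
    Computable.snd.comp (Computable.snd.comp Computable.fst)
  have hand := Primrec.and.to_comp
  have hnot := Primrec.not.to_comp
  have hlt : Computable₂ fun x y : ℕ => decide (x < y) := Primrec.nat_lt.decide.to_comp
  have heq : Computable₂ fun x y : ℕ => decide (x = y) := Primrec.eq.decide.to_comp
  have hsub : Computable₂ fun x y : ℕ => x - y := Primrec.nat_sub.to_comp
  have main : Computable fun t : ((ℕ × ℕ) × (ℕ × List ℕ)) × ℕ =>
      cond (decide (t.2 < t.1.2.1)) (D t.1.1.1 t.2) (Sum.casesOn (ofNat Query t.2)
      (fun x => cond (decide (x < t.1.2.1)) (D t.1.1.1 (encode (Sum.inl x : Query)))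
        (D t.1.1.2 (encode (Sum.inl (x - t.1.2.1) : Query)) &&
          ball t.1.2.1 fun y => !(D t.1.1.1 (encode (Sum.inl y : Query)) &&
            decide (t.1.2.2.getD y 0 = x - t.1.2.1))))
      (fun p => D t.1.1.2 (encode
        (Sum.inr (p.1, p.2.map (shift t.1.2.1 t.1.2.2)) : Query)))) := by
    refine Computable.cond (hlt.comp Computable.snd hs) (hD.comp ha Computable.snd) ?_
    refine Computable.sumCasesOn ((Computable.ofNat Query).comp Computable.snd) ?_ ?_
    · refine Computable.to₂ (f := fun r : (((ℕ × ℕ) × (ℕ × List ℕ)) × ℕ) × ℕ =>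
        cond (decide (r.2 < r.1.1.2.1)) (D r.1.1.1.1 (encode (Sum.inl r.2 : Query)))
        (D r.1.1.1.2 (encode (Sum.inl (r.2 - r.1.1.2.1) : Query)) &&
          ball r.1.1.2.1 fun y => !(D r.1.1.1.1 (encode (Sum.inl y : Query)) &&
            decide (r.1.1.2.2.getD y 0 = r.2 - r.1.1.2.1)))) ?_
      refine Computable.cond (hlt.comp Computable.snd (hs.comp Computable.fst))
        (hD.comp (ha.comp Computable.fst) (comp_query_inl.comp Computable.snd)) ?_
      refine hand.comp (hD.comp (hz.comp Computable.fst)
        (comp_query_inl.comp (hsub.comp Computable.snd (hs.comp Computable.fst)))) ?_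
      refine computable_ball (hs.comp Computable.fst) ?_
      exact (hnot.comp (hand.comp (hD.comp (ha.comp (Computable.fst.comp Computable.fst))
        (comp_query_inl.comp Computable.snd)) (heq.comp
        (comp_getD.comp (hl.comp (Computable.fst.comp Computable.fst)) Computable.snd)
        (hsub.comp (Computable.snd.comp Computable.fst)
          (hs.comp (Computable.fst.comp Computable.fst)))))).to₂
    · have hmap : Computable fun r : (((ℕ × ℕ) × (ℕ × List ℕ)) × ℕ) × (ℕ × List ℕ) =>
          r.2.2.map (shift r.1.1.2.1 r.1.1.2.2) :=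
        comp_mapShift.comp (Computable.snd.comp Computable.snd)
          (Computable.snd.comp (Computable.fst.comp Computable.fst))
      exact (hD.comp (hz.comp Computable.fst) (comp_query_inr.comp
        (Computable.fst.comp Computable.snd) hmap)).to₂
  refine main.of_eq fun t => ?_
  unfold answer
  by_cases h : t.2 < t.1.2.1
  · simp [h]
  · simp only [h, decide_false, cond_false, if_false]
    rcases ofNat Query t.2 with x | p
    · by_cases hx : x < t.1.2.1 <;> simp [hx]
    · rfl

/-! ## The self-referential structure -/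

/-- The diagram to which the recursion theorem is applied. -/
def F (ar : ℕ → Option ℕ) (D : ℕ → ℕ → Bool) (cg : Code) (h : ℕ → ℕ) (a : ℕ) (c : Code) (n : ℕ) :
    Part ℕ :=
  cond (cg.evaln n (encode c)).isSome
    ((Nat.rfind fun s => Part.some (cg.evaln s (encode c)).isSome).bind fun s =>
      (Nat.rfind fun m => Part.some
        (simB ar D ((a, h ((cg.evaln s (encode c)).getD 0)), (s, ofNat (List ℕ) m)))).bind fun m =>
        Part.some (answer (D a) (D (h ((cg.evaln s (encode c)).getD 0))) s
          (ofNat (List ℕ) m) n).toNat)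
    (Part.some (D a n).toNat)

theorem partrec_F {ar : ℕ → Option ℕ} (har : Computable ar) (hD : Computable₂ D) (cg : Code)
    {h : ℕ → ℕ} (hh : Computable h) (a : ℕ) : Partrec₂ (F ar D cg h a) := by
  have hev : Computable₂ fun (c : Code) (s : ℕ) => cg.evaln s (encode c) :=
    (Code.primrec_evaln.comp (Primrec.pair (Primrec.pair Primrec.snd (Primrec.const cg))
      (Primrec.encode.comp Primrec.fst))).to_comp.to₂
  have hnat : Computable Bool.toNat := (Primrec.dom_bool Bool.toNat).to_comp
  have hsome : Computable (Option.isSome : Option ℕ → Bool) := Primrec.option_isSome.to_comp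
  have hz : Computable₂ fun (c : Code) (s : ℕ) => h ((cg.evaln s (encode c)).getD 0) :=
    hh.comp (Computable.option_getD hev (Computable.const 0))
  refine Partrec.cond (α := Code × ℕ) (c := fun p => (cg.evaln p.2 (encode p.1)).isSome)
    (f := fun p => (Nat.rfind fun s => Part.some (cg.evaln s (encode p.1)).isSome).bind fun s =>
      (Nat.rfind fun m => Part.some
        (simB ar D ((a, h ((cg.evaln s (encode p.1)).getD 0)), (s, ofNat (List ℕ) m)))).bind
        fun m => Part.some (answer (D a) (D (h ((cg.evaln s (encode p.1)).getD 0))) s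
          (ofNat (List ℕ) m) p.2).toNat)
    (g := fun p => Part.some (D a p.2).toNat) ?_ ?_ ?_
  · exact hsome.comp (hev.comp Computable.fst Computable.snd)
  · refine Partrec.bind (Partrec.rfind ?_) ?_
    · exact (hsome.comp (hev.comp (Computable.fst.comp Computable.fst) Computable.snd)).partrec.to₂
    · refine Partrec.to₂ (f := fun q : (Code × ℕ) × ℕ =>
        (Nat.rfind fun m => Part.some
        (simB ar D ((a, h ((cg.evaln q.2 (encode q.1.1)).getD 0)), (q.2, ofNat (List ℕ) m)))).bind
        fun m => Part.some (answer (D a) (D (h ((cg.evaln q.2 (encode q.1.1)).getD 0))) q.2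
          (ofNat (List ℕ) m) q.1.2).toNat) ?_
      refine Partrec.bind (Partrec.rfind ?_) ?_
      · refine Computable.partrec (f := fun r : ((Code × ℕ) × ℕ) × ℕ =>
          (simB ar D ((a, h ((cg.evaln r.1.2 (encode r.1.1.1)).getD 0)),
            (r.1.2, ofNat (List ℕ) r.2)))) ?_ |>.to₂
        refine (comp_simB har hD).comp ?_
        refine Computable.pair (Computable.pair (Computable.const a) ?_) ?_
        · exact hz.comp (Computable.fst.comp (Computable.fst.comp Computable.fst))
            (Computable.snd.comp Computable.fst)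
        · exact Computable.pair (Computable.snd.comp Computable.fst)
            ((Computable.ofNat (List ℕ)).comp Computable.snd)
      · refine Computable.partrec (f := fun r : ((Code × ℕ) × ℕ) × ℕ =>
          (answer (D a) (D (h ((cg.evaln r.1.2 (encode r.1.1.1)).getD 0))) r.1.2
            (ofNat (List ℕ) r.2) r.1.1.2).toNat) ?_ |>.to₂
        refine hnat.comp ((comp_answer hD).comp (f := fun t : ((ℕ × ℕ) × (ℕ × List ℕ)) × ℕ =>
          answer (D t.1.1.1) (D t.1.1.2) t.1.2.1 t.1.2.2 t.2)
          (g := fun r : ((Code × ℕ) × ℕ) × ℕ =>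
            (((a, h ((cg.evaln r.1.2 (encode r.1.1.1)).getD 0)), (r.1.2, ofNat (List ℕ) r.2)),
              r.1.1.2)) ?_)
        refine Computable.pair (Computable.pair (Computable.pair (Computable.const a) ?_) ?_) ?_
        · exact hz.comp (Computable.fst.comp (Computable.fst.comp Computable.fst))
            (Computable.snd.comp Computable.fst)
        · exact Computable.pair (Computable.snd.comp Computable.fst)
            ((Computable.ofNat (List ℕ)).comp Computable.snd)
        · exact Computable.snd.comp (Computable.fst.comp Computable.fst)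
  · exact (hnat.comp (hD.comp (Computable.const a) Computable.snd)).partrec

theorem toNat_eq_one_iff (b : Bool) : (Part.some b.toNat = Part.some 1) ↔ b = true := by
  cases b <;> simp

theorem isIndex_of_eval {e : ℕ} {D' : ℕ → Bool}
    (h : ∀ n, (ofNat Code e).eval n = Part.some (D' n).toNat) : IsIndex e := by
  intro q
  rw [h]
  cases D' (encode q)
  · exact Or.inl rfl
  · exact Or.inr rfl

theorem M_of_eval {ar : ℕ → Option ℕ} {e : ℕ} {D' : ℕ → Bool}
    (h : ∀ n, (ofNat Code e).eval n = Part.some (D' n).toNat) : M ar e = St ar (pr D') := by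
  unfold M
  congr 1
  funext q
  rw [h]
  exact propext (toNat_eq_one_iff _)

/-- The recursion theorem argument: if every finite part of the `a`-th structure can be found in
every other structure, then there is an index `e` such that either `cg` diverges at `e` and `e` is
an index of the `a`-th structure, or `cg` converges at `e` to some `x` and `e` is an index of a
copy of the `h x`-th structure. -/
theorem exists_switch {ar : ℕ → Option ℕ} (har : Computable ar) (hD : Computable₂ D) (cg : Code)
    {h : ℕ → ℕ} (hh : Computable h) (a : ℕ)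
    (hsim : ∀ s z, ∃ l, Sim ar s (pr (D a)) (pr (D z)) l) :
    ∃ e : ℕ, ∃ D' : ℕ → Bool, (∀ n, (ofNat Code e).eval n = Part.some (D' n).toNat) ∧
      ((¬ (cg.eval e).Dom ∧ D' = D a) ∨
        ∃ x ∈ cg.eval e, Nonempty ((St ar (pr D')) ≃[lang ar] (St ar (pr (D (h x)))))) := by
  classical
  obtain ⟨c, hc⟩ := Code.fixed_point₂ (partrec_F har hD cg hh a)
  by_cases hconv : ∃ s, (cg.evaln s (encode c)).isSome = true
  · -- the computation converges; let `s` be the first stage
    let s := Nat.find hconv
    have hs : (cg.evaln s (encode c)).isSome = true := Nat.find_spec hconv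
    have hmin : ∀ m < s, (cg.evaln m (encode c)).isSome = false := fun m hm => by
      simpa using Nat.find_min hconv hm
    obtain ⟨x, hx⟩ := Option.isSome_iff_exists.1 hs
    have hex : ∃ m, simB ar D ((a, h x), (s, ofNat (List ℕ) m)) = true := by
      obtain ⟨l, hl⟩ := hsim s (h x)
      exact ⟨encode l, by rw [ofNat_encode]; exact simB_iff.2 hl⟩
    let m := Nat.find hex
    have hm := Nat.find_spec hex
    have hm' : ∀ k < m, simB ar D ((a, h x), (s, ofNat (List ℕ) k)) = false := fun k hk => by
      simpa using Nat.find_min hex hk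
    refine ⟨encode c, answer (D a) (D (h x)) s (ofNat (List ℕ) m), ?_, Or.inr ⟨x, ?_, ?_⟩⟩
    · intro n
      rw [ofNat_encode, hc]
      unfold F
      by_cases hn : n < s
      · rw [hmin n hn, cond_false, answer_of_lt hn]
      · have h1 : (cg.evaln n (encode c)).isSome = true := by
          have := Code.evaln_mono (not_lt.1 hn) (Option.mem_def.2 hx)
          rw [Option.mem_def] at this
          rw [this]; rfl
        have h2 : (Nat.rfind fun s => Part.some (cg.evaln s (encode c)).isSome) = Part.some s := by
          apply Part.eq_some_iff.2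
          rw [Nat.mem_rfind]
          constructor
          · rw [hs]; exact Part.mem_some _
          · intro k hk
            rw [hmin k hk]; exact Part.mem_some _
        have h3 : (Nat.rfind fun k => Part.some
            (simB ar D ((a, h x), (s, ofNat (List ℕ) k)))) = Part.some m := by
          apply Part.eq_some_iff.2
          rw [Nat.mem_rfind]
          constructor
          · rw [hm]; exact Part.mem_some _
          · intro k hk
            rw [hm' k hk]; exact Part.mem_some _
        rw [h1, cond_true, h2, Part.bind_some, hx, Option.getD_some, h3, Part.bind_some]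
    · exact Code.evaln_sound (Option.mem_def.2 hx)
    · exact iso_of_sim (simB_iff.1 hm)
  · -- the computation diverges
    push Not at hconv
    have hnone : ∀ n, (cg.evaln n (encode c)).isSome = false := fun n => by simpa using hconv n
    refine ⟨encode c, D a, ?_, Or.inl ⟨?_, rfl⟩⟩
    · intro n
      rw [ofNat_encode, hc]
      unfold F
      rw [hnone n, cond_false]
    · intro hdom
      obtain ⟨k, hk⟩ := Code.evaln_complete.1 (Part.get_mem hdom)
      have := hnone k
      rw [Option.mem_def] at hk
      rw [hk] at this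
      simp at this

end comp

/-! ## The equivalence relation -/

/-- A noncomputable set which is many-one reducible to its complement: `2 c + 1` is in `A` if and
only if `c` halts on input `0`, and `2 c` is in `A` if and only if `c` does not halt on
input `0`. -/
def A (x : ℕ) : Prop := ((ofNat Code x.div2).eval 0).Dom ↔ x.bodd = true

/-- Interchange the two classes. -/
def swap (x : ℕ) : ℕ := Nat.bit (!x.bodd) x.div2

theorem A_swap (x : ℕ) : A (swap x) ↔ ¬ A x := by
  unfold A swap
  rw [Nat.bodd_bit, Nat.div2_bit]
  cases x.bodd <;> simp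

theorem comp_swap : Computable swap := by
  refine Primrec.to_comp ?_
  refine (Primrec.nat_add.comp (Primrec.nat_double.comp Primrec.nat_div2)
    ((Primrec.dom_bool Bool.toNat).comp (Primrec.not.comp Primrec.nat_bodd))).of_eq fun x => ?_
  unfold swap
  rw [Nat.bit_val]

theorem not_computable_A : ¬ ComputablePred A := by
  intro h
  apply ComputablePred.halting_problem 0
  obtain ⟨f, hf, hfA⟩ := ComputablePred.computable_iff.1 h
  refine ComputablePred.computable_iff.2 ⟨fun c => f (Nat.bit true (encode c)), ?_, ?_⟩
  · refine hf.comp (Primrec.to_comp ?_)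
    refine (Primrec.nat_double_succ.comp Primrec.encode).of_eq fun c => ?_
    rw [Nat.bit_val]; rfl
  · funext c
    rw [← congrFun hfA (Nat.bit true (encode c))]
    unfold A
    rw [Nat.bodd_bit, Nat.div2_bit, ofNat_encode]
    simp

/-- The equivalence relation with the two classes `A` and its complement. -/
def E (x y : ℕ) : Prop := A x ↔ A y

/-- Boolean matrix of the `Σ¹₁` definition of `E`: the first value `n` of the guessed function
codes the claimed truth values `b₁`, `b₂` of the two halting statements, and a time `t`. -/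
def matrixB (t : (ℕ × ℕ) × List ℕ) : Bool :=
  decide (t.2.length = 0) ||
  (((cond (t.2.getD 0 0).bodd
      ((Code.evaln (t.2.getD 0 0).div2.div2 (ofNat Code t.1.1.div2) 0).isSome)
      (!(Code.evaln t.2.length (ofNat Code t.1.1.div2) 0).isSome)) &&
    (cond (t.2.getD 0 0).div2.bodd
      ((Code.evaln (t.2.getD 0 0).div2.div2 (ofNat Code t.1.2.div2) 0).isSome)
      (!(Code.evaln t.2.length (ofNat Code t.1.2.div2) 0).isSome))) &&
   (((t.2.getD 0 0).bodd == t.1.1.bodd) == ((t.2.getD 0 0).div2.bodd == t.1.2.bodd)))

theorem comp_matrixB : Computable matrixB := by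
  refine Primrec.to_comp ?_
  have hl : Primrec fun t : (ℕ × ℕ) × List ℕ => t.2.length := Primrec.list_length.comp Primrec.snd
  have hn : Primrec fun t : (ℕ × ℕ) × List ℕ => t.2.getD 0 0 :=
    (Primrec.list_getD 0).comp Primrec.snd (Primrec.const 0)
  have hx : Primrec fun t : (ℕ × ℕ) × List ℕ => t.1.1 := Primrec.fst.comp Primrec.fst
  have hy : Primrec fun t : (ℕ × ℕ) × List ℕ => t.1.2 := Primrec.snd.comp Primrec.fst
  have hev : ∀ {k c : (ℕ × ℕ) × List ℕ → ℕ}, Primrec k → Primrec c →
      Primrec fun t => (Code.evaln (k t) (ofNat Code (c t).div2) 0).isSome := by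
    intro k c hk hc
    exact Primrec.option_isSome.comp (Code.primrec_evaln.comp (Primrec.pair
      (Primrec.pair hk ((Primrec.ofNat Code).comp (Primrec.nat_div2.comp hc))) (Primrec.const 0)))
  have hb1 := Primrec.nat_bodd.comp hn
  have hb2 := Primrec.nat_bodd.comp (Primrec.nat_div2.comp hn)
  have ht := Primrec.nat_div2.comp (Primrec.nat_div2.comp hn)
  unfold matrixB
  refine Primrec.or.comp ((Primrec.eq.comp hl (Primrec.const 0)).decide)
    (Primrec.and.comp (Primrec.and.comp ?_ ?_) ?_)
  · exact Primrec.cond hb1 (hev ht hx) (Primrec.not.comp (hev hl hx))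
  · exact Primrec.cond hb2 (hev ht hy) (Primrec.not.comp (hev hl hy))
  · exact Primrec.beq.comp (Primrec.beq.comp hb1 (Primrec.nat_bodd.comp hx))
      (Primrec.beq.comp hb2 (Primrec.nat_bodd.comp hy))

theorem evaln_isSome_mono {c : Code} {k k' : ℕ} (h : k ≤ k') (hk : (c.evaln k 0).isSome = true) :
    (c.evaln k' 0).isSome = true := by
  obtain ⟨x, hx⟩ := Option.isSome_iff_exists.1 hk
  have := Code.evaln_mono h (Option.mem_def.2 hx)
  rw [Option.mem_def] at this
  rw [this]; rfl

theorem dom_iff_evaln {c : Code} : (c.eval 0).Dom ↔ ∃ k, (c.evaln k 0).isSome = true := by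
  constructor
  · intro h
    obtain ⟨k, hk⟩ := Code.evaln_complete.1 (Part.get_mem h)
    rw [Option.mem_def] at hk
    exact ⟨k, by rw [hk]; rfl⟩
  · rintro ⟨k, hk⟩
    obtain ⟨x, hx⟩ := Option.isSome_iff_exists.1 hk
    exact Part.dom_iff_mem.2 ⟨x, Code.evaln_sound (Option.mem_def.2 hx)⟩

theorem isSigma11_E : IsSigma11 E := by
  classical
  refine ⟨fun t => matrixB t = true, ?_, ?_⟩
  · exact ComputablePred.computable_iff.2 ⟨matrixB, comp_matrixB, rfl⟩
  · intro x y
    constructor
    · intro hE
      -- a time by which both computations have converged, if they converge at all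
      have htime : ∀ c : Code, ∃ t, (c.eval 0).Dom → (c.evaln t 0).isSome = true := by
        intro c
        by_cases hc : (c.eval 0).Dom
        · obtain ⟨k, hk⟩ := dom_iff_evaln.1 hc
          exact ⟨k, fun _ => hk⟩
        · exact ⟨0, fun h => absurd h hc⟩
      obtain ⟨t1, h1⟩ := htime (ofNat Code x.div2)
      obtain ⟨t2, h2⟩ := htime (ofNat Code y.div2)
      let b1 : Bool := decide (((ofNat Code x.div2).eval 0).Dom)
      let b2 : Bool := decide (((ofNat Code y.div2).eval 0).Dom)
      let n : ℕ := Nat.bit b1 (Nat.bit b2 (max t1 t2))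
      refine ⟨fun _ => n, fun k => ?_⟩
      unfold matrixB
      rcases Nat.eq_zero_or_pos k with rfl | hk
      · simp
      · have hg : ((List.range k).map fun _ : ℕ => n).getD 0 0 = n := by
          simp [List.getD, hk]
        have hn1 : n.bodd = b1 := Nat.bodd_bit _ _
        have hn2 : n.div2.bodd = b2 := by
          show (Nat.bit b1 (Nat.bit b2 (max t1 t2))).div2.bodd = b2
          rw [Nat.div2_bit, Nat.bodd_bit]
        have hn3 : n.div2.div2 = max t1 t2 := by
          show (Nat.bit b1 (Nat.bit b2 (max t1 t2))).div2.div2 = _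
          rw [Nat.div2_bit, Nat.div2_bit]
        simp only [hg, hn1, hn2, hn3, Bool.or_eq_true, Bool.and_eq_true]
        right
        refine ⟨⟨?_, ?_⟩, ?_⟩
        · by_cases hd : ((ofNat Code x.div2).eval 0).Dom
          · have : b1 = true := decide_eq_true hd
            rw [this, cond_true]
            exact evaln_isSome_mono (le_max_left _ _) (h1 hd)
          · have : b1 = false := decide_eq_false hd
            rw [this, cond_false, Bool.not_eq_true', ← Bool.not_eq_true]
            exact fun h => hd (dom_iff_evaln.2 ⟨_, h⟩)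
        · by_cases hd : ((ofNat Code y.div2).eval 0).Dom
          · have : b2 = true := decide_eq_true hd
            rw [this, cond_true]
            exact evaln_isSome_mono (le_max_right _ _) (h2 hd)
          · have : b2 = false := decide_eq_false hd
            rw [this, cond_false, Bool.not_eq_true', ← Bool.not_eq_true]
            exact fun h => hd (dom_iff_evaln.2 ⟨_, h⟩)
        · unfold E A at hE
          by_cases hd1 : ((ofNat Code x.div2).eval 0).Dom <;>
            by_cases hd2 : ((ofNat Code y.div2).eval 0).Dom <;>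
            simp only [hd1, hd2, true_iff, false_iff, Bool.not_eq_true] at hE <;>
            simp only [b1, b2, hd1, hd2, decide_true, decide_false] <;>
            revert hE <;> cases x.bodd <;> cases y.bodd <;> simp
    · rintro ⟨g, hg⟩
      have key : ∀ k, ((List.range (k + 1)).map g).getD 0 0 = g 0 := by
        intro k
        simp [List.getD]
      have main : ∀ k,
          ((cond (g 0).bodd ((Code.evaln (g 0).div2.div2 (ofNat Code x.div2) 0).isSome)
            (!(Code.evaln (k + 1) (ofNat Code x.div2) 0).isSome)) = true ∧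
          (cond (g 0).div2.bodd ((Code.evaln (g 0).div2.div2 (ofNat Code y.div2) 0).isSome)
            (!(Code.evaln (k + 1) (ofNat Code y.div2) 0).isSome)) = true) ∧
          (((g 0).bodd == x.bodd) == ((g 0).div2.bodd == y.bodd)) = true := by
        intro k
        have h := hg (k + 1)
        unfold matrixB at h
        simp only [key, List.length_map, List.length_range, Bool.or_eq_true,
          Bool.and_eq_true] at h
        rcases h with h | h
        · simp at h
        · exact h
      have hx : (g 0).bodd = true ↔ ((ofNat Code x.div2).eval 0).Dom := by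
        constructor
        · intro hb
          have h := (main 0).1.1
          rw [hb, cond_true] at h
          exact dom_iff_evaln.2 ⟨_, h⟩
        · intro hd
          by_contra hb
          rw [Bool.not_eq_true] at hb
          obtain ⟨k, hk⟩ := dom_iff_evaln.1 hd
          have h := (main k).1.1
          rw [hb, cond_false, Bool.not_eq_true', ← Bool.not_eq_true] at h
          exact h (evaln_isSome_mono (Nat.le_succ k) hk)
      have hy : (g 0).div2.bodd = true ↔ ((ofNat Code y.div2).eval 0).Dom := by
        constructor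
        · intro hb
          have h := (main 0).1.2
          rw [hb, cond_true] at h
          exact dom_iff_evaln.2 ⟨_, h⟩
        · intro hd
          by_contra hb
          rw [Bool.not_eq_true] at hb
          obtain ⟨k, hk⟩ := dom_iff_evaln.1 hd
          have h := (main k).1.2
          rw [hb, cond_false, Bool.not_eq_true', ← Bool.not_eq_true] at h
          exact h (evaln_isSome_mono (Nat.le_succ k) hk)
      have h3 := (main 0).2
      unfold E A
      rw [← hx, ← hy]
      revert h3
      cases (g 0).bodd <;> cases (g 0).div2.bodd <;> cases x.bodd <;> cases y.bodd <;> simp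

/-! ## The main theorem -/

theorem st_equiv_embedding {ar : ℕ → Option ℕ} {N N' : CategoryTheory.Bundled.{0} (lang ar).Structure}
    (h : Nonempty (N ≃[lang ar] N')) :
    Nonempty (N ↪[lang ar] N') ∧ Nonempty (N' ↪[lang ar] N) := by
  obtain ⟨φ⟩ := h
  exact ⟨⟨φ.toEmbedding⟩, ⟨φ.symm.toEmbedding⟩⟩

/-- **Main theorem.** There is a `Σ¹₁` equivalence relation on `ℕ` which is not computably
bi-reducible with the bi-embeddability relation on the computable members of any
isomorphism-closed class of structures, for any computable relational language. -/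
theorem result : ∃ E : ℕ → ℕ → Prop, Equivalence E ∧ IsSigma11 E ∧
    ∀ (ar : ℕ → Option ℕ), Computable ar →
      ∀ K : Set (CategoryTheory.Bundled.{0} (lang ar).Structure), IsoClosed ar K →
        ¬ (CRed Set.univ E (indexSet ar K) (BiEmb ar) ∧
            CRed (indexSet ar K) (BiEmb ar) Set.univ E) := by
  classical
  refine ⟨E, ⟨fun x => Iff.rfl, fun h => h.symm, fun h h' => h.trans h'⟩, isSigma11_E, ?_⟩
  rintro ar har K hK ⟨⟨f, hf, hfK, hfE⟩, ⟨g, hg, hgK, hgE⟩⟩
  -- the first reduction as a total computable function
  have hdom : ∀ x, (f x).Dom := fun x => by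
    obtain ⟨y, hy, -⟩ := hfK x (Set.mem_univ x)
    exact Part.dom_iff_mem.2 ⟨y, hy⟩
  let f' : ℕ → ℕ := fun x => (f x).get (hdom x)
  have hf'mem : ∀ x, f' x ∈ f x := fun x => Part.get_mem _
  have hf' : Computable f' := Partrec.of_eq_tot hf hf'mem
  have hf'K : ∀ x, f' x ∈ indexSet ar K := fun x => by
    obtain ⟨y, hy, hyK⟩ := hfK x (Set.mem_univ x)
    rwa [Part.mem_unique (hf'mem x) hy]
  have hf'E : ∀ x y, E x y ↔ BiEmb ar (f' x) (f' y) := fun x y =>
    hfE x (Set.mem_univ x) y (Set.mem_univ y) _ (hf'mem x) _ (hf'mem y)
  -- the diagrams of the structures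
  have hval : ∀ x n, ∃ b : Bool, (ofNat Code (f' x)).eval n = Part.some b.toNat := by
    intro x n
    rcases (hf'K x).1 (ofNat Query n) with h | h
    · exact ⟨false, by rw [encode_ofNat] at h; exact h⟩
    · exact ⟨true, by rw [encode_ofNat] at h; exact h⟩
  choose D hD' using hval
  have hD : Computable₂ D := by
    have h1 : Partrec fun p : ℕ × ℕ => (ofNat Code (f' p.1)).eval p.2 :=
      Code.eval_part.comp ((Computable.ofNat Code).comp (hf'.comp Computable.fst)) Computable.snd
    have h2 : Computable fun p : ℕ × ℕ => (D p.1 p.2).toNat := by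
      refine Partrec.of_eq_tot h1 fun p => ?_
      rw [hD']
      exact Part.mem_some _
    have h3 : Computable fun p : ℕ × ℕ => decide ((D p.1 p.2).toNat = 1) :=
      (Primrec.eq.decide.to_comp (f := fun x y : ℕ => decide (x = y))).comp h2
        (Computable.const 1)
    refine (h3.of_eq fun p => ?_)
    cases D p.1 p.2 <;> rfl
  have hM : ∀ x, M ar (f' x) = St ar (pr (D x)) := fun x => M_of_eval (hD' x)
  -- the second reduction, composed with the first one
  have hr : ∀ x, ∃ y, y ∈ g (f' x) := fun x => by
    obtain ⟨y, hy, -⟩ := hgK (f' x) (hf'K x)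
    exact ⟨y, hy⟩
  choose r hr' using hr
  have hrE : ∀ x y, E x y ↔ E (r x) (r y) := fun x y =>
    (hf'E x y).trans (hgE _ (hf'K x) _ (hf'K y) _ (hr' x) _ (hr' y))
  -- a computable function `h` such that `r (h x)` is never equivalent to `x`
  obtain ⟨h, hh, hrh⟩ : ∃ h : ℕ → ℕ, Computable h ∧ ∀ x, ¬ E x (r (h x)) := by
    by_cases hc : A 0 ↔ A (r 0)
    · refine ⟨swap, comp_swap, fun x => ?_⟩
      have h1 := hrE 0 (swap x)
      have h2 := A_swap x
      unfold E at h1 ⊢
      tauto
    · refine ⟨id, Computable.id, fun x => ?_⟩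
      have h1 := hrE 0 x
      unfold E at h1 ⊢
      simp only [id]
      tauto
  obtain ⟨cg, hcg⟩ := Code.exists_code.1 (Partrec.nat_iff.1 hg)
  -- no structure has all its finite parts in all the other structures
  have hnot : ∀ a, ¬ ∀ s z, ∃ l, Sim ar s (pr (D a)) (pr (D z)) l := by
    intro a hsim
    obtain ⟨e, D', heval, hcase⟩ := exists_switch har hD cg hh a hsim
    rcases hcase with ⟨hdiv, rfl⟩ | ⟨x, hx, hiso⟩
    · have heK : e ∈ indexSet ar K := by
        refine ⟨isIndex_of_eval heval, ?_⟩
        rw [M_of_eval heval, ← hM a]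
        exact (hf'K a).2
      obtain ⟨y, hy, -⟩ := hgK e heK
      apply hdiv
      rw [hcg]
      exact Part.dom_iff_mem.2 ⟨y, hy⟩
    · have heK : e ∈ indexSet ar K := by
        refine ⟨isIndex_of_eval heval, ?_⟩
        rw [M_of_eval heval]
        refine hK _ _ ?_ (hf'K (h x)).2
        rw [hM (h x)]
        obtain ⟨φ⟩ := hiso
        exact ⟨φ.symm⟩
      have hbi : BiEmb ar e (f' (h x)) := by
        unfold BiEmb
        rw [M_of_eval heval, hM (h x)]
        exact st_equiv_embedding hiso
      rw [hcg] at hx
      exact hrh x ((hgE e heK (f' (h x)) (hf'K (h x)) x hx (r (h x)) (hr' (h x))).1 hbi)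
  -- hence both classes are recursively enumerable
  have hre : ∀ a, REPred fun z => E a z := by
    intro a
    obtain ⟨s, hs⟩ := not_forall.1 (hnot a)
    obtain ⟨z₀, hz₀⟩ := not_forall.1 hs
    have key : ∀ z, E a z ↔ ∃ l, Sim ar s (pr (D a)) (pr (D z)) l := by
      intro z
      constructor
      · intro haz
        have h1 := ((hf'E a z).1 haz).1
        rw [hM, hM] at h1
        exact exists_sim_of_embedding h1 s
      · rintro ⟨l, hl⟩
        by_contra hne
        -- then `z` is equivalent to `z₀`
        have haz₀ : ¬ E a z₀ := by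
          intro haz₀
          have h1 := ((hf'E a z₀).1 haz₀).1
          rw [hM, hM] at h1
          exact hz₀ (exists_sim_of_embedding h1 s)
        have hzz₀ : E z z₀ := by
          unfold E at hne haz₀ ⊢
          tauto
        have h1 := ((hf'E z z₀).1 hzz₀).1
        rw [hM, hM] at h1
        exact hz₀ (hl.trans_embedding h1)
    have hcomp : Computable₂ fun (z m : ℕ) => simB ar D ((a, z), (s, ofNat (List ℕ) m)) := by
      refine (comp_simB har hD).comp ?_
      exact Computable.pair (Computable.pair (Computable.const a) Computable.fst)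
        (Computable.pair (Computable.const s) ((Computable.ofNat (List ℕ)).comp Computable.snd))
    have hpart : Partrec fun z : ℕ =>
        Nat.rfind fun m => Part.some (simB ar D ((a, z), (s, ofNat (List ℕ) m))) :=
      Partrec.rfind hcomp.partrec₂
    refine hpart.dom_re.of_eq fun z => ?_
    rw [key z]
    constructor
    · intro hd
      have h1 := Nat.rfind_spec (Part.get_mem hd)
      rw [Part.mem_some_iff] at h1
      exact ⟨_, simB_iff.1 h1.symm⟩
    · rintro ⟨l, hl⟩
      rw [Nat.rfind_dom]
      refine ⟨encode l, ?_, fun _ => trivial⟩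
      rw [ofNat_encode, simB_iff.2 hl]
      exact Part.mem_some _
  -- so that `A` is computable
  apply not_computable_A
  have hex : ∃ a, A a := by
    by_cases h0 : A 0
    · exact ⟨0, h0⟩
    · exact ⟨swap 0, (A_swap 0).2 h0⟩
  obtain ⟨a, ha⟩ := hex
  have ha' : ¬ A (swap a) := fun h => (A_swap a).1 h ha
  rw [ComputablePred.computable_iff_re_compl_re]
  constructor
  · refine (hre a).of_eq fun z => ?_
    unfold E
    tauto
  · refine (hre (swap a)).of_eq fun z => ?_
    unfold E
    tauto

end Pool.Agent.Results.MP_18fff8_lc.TwoClasses
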